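import Pool.Agent.H519Z.DP.B

set_option autoImplicit false

open Finset MeasureTheory

namespace Pool.Agent.H519Z.DP

open Pool.Agent.H369Z.Hoh

lemma sum_windows (u : ℕ → ℕ) (hu : Monotone u) (f : ℕ → ℝ) (J : ℕ) :
    ∑ m ∈ Ioc (u 0) (u J), f m = ∑ j ∈ range J, ∑ m ∈ Ioc (u j) (u (j + 1)), f m := by
  induction J with
  | zero => simp
  | succ J ih =>
    rw [Finset.sum_range_succ, ← ih,
      Finset.sum_Ioc_consecutive f (hu (Nat.zero_le J)) (hu (Nat.le_succ J))]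

lemma one_window (Q L T : ℝ) (hQ : 0 ≤ Q) (hL : 4 ≤ L) (hT : 1 ≤ T) (hTL : T ≤ Real.exp L)
    (hq : |QF (1 / L) 1 (Real.exp L) (Real.exp L)| ≤ Q / L) (x : ℝ) (j : ℕ) :
    T * ∑ m ∈ Ioc ⌊Real.exp (4 * L + j / T)⌋₊ ⌊Real.exp (4 * L + ((j + 1 : ℕ) : ℝ) / T)⌋₊,
      LR (1 / L) (Real.exp L) m ^ 2 / m * Real.exp (-(T ^ 2 * (x - Real.log m) ^ 2 / 4)) ≤
      Real.exp 2 * ((3 * Q + Real.exp 2) / L) * Real.exp (-|(j : ℝ) - T * (x - 4 * L)|) := by
  have hL0 : 0 < L := by linarith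
  have hT0 : 0 < T := by linarith
  set y := Real.exp (4 * L + j / T) with hy
  set y' := Real.exp (4 * L + ((j + 1 : ℕ) : ℝ) / T) with hy'
  have hy0 : 0 < y := Real.exp_pos _
  have hyy : y' = y * Real.exp (1 / T) := by
    rw [hy, hy', ← Real.exp_add]; congr 1; push_cast; ring
  have hT1 : 0 < 1 / T := by positivity
  have hT2 : 1 / T ≤ 1 := by rw [div_le_one hT0]; exact hT
  have he1 : Real.exp (1 / T) - 1 ≤ 2 * (1 / T) := by
    have := Real.abs_exp_sub_one_le (x := 1 / T) (by rw [abs_of_pos hT1]; exact hT2)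
    rw [abs_of_pos hT1] at this
    exact (le_abs_self _).trans this
  have hle : y ≤ y' := by
    rw [hyy]; exact le_mul_of_one_le_right hy0.le (Real.one_le_exp hT1.le)
  have hUV : ⌊y⌋₊ ≤ ⌊y'⌋₊ := Nat.floor_le_floor hle
  set E := Real.exp 2 * Real.exp (-|(j : ℝ) - T * (x - 4 * L)|) with hE
  have hE0 : 0 ≤ E := by positivity
  have h1 : ∀ m ∈ Ioc ⌊y⌋₊ ⌊y'⌋₊, LR (1 / L) (Real.exp L) m ^ 2 / m *
      Real.exp (-(T ^ 2 * (x - Real.log m) ^ 2 / 4)) ≤ E / y * LR (1 / L) (Real.exp L) m ^ 2 := by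
    intro m hm
    obtain ⟨hm1, hm2⟩ := Finset.mem_Ioc.1 hm
    have hm3 : y < m := (Nat.floor_lt hy0.le).1 hm1
    have hm4 : (m : ℝ) ≤ y' := (Nat.le_floor_iff (by linarith)).1 hm2
    have hm0 : (0 : ℝ) < m := by linarith
    have hl1 : 4 * L + j / T < Real.log m := by
      rw [Real.lt_log_iff_exp_lt hm0]; exact hm3
    have hl2 : Real.log m ≤ 4 * L + ((j + 1 : ℕ) : ℝ) / T := by
      rw [Real.log_le_iff_le_exp hm0]; exact hm4
    have hl3 : (j : ℝ) < T * (Real.log m - 4 * L) := by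
      have : (j : ℝ) / T < Real.log m - 4 * L := by linarith
      rw [div_lt_iff₀ hT0] at this; linarith
    have hl4 : T * (Real.log m - 4 * L) ≤ (j : ℝ) + 1 := by
      have : Real.log m - 4 * L ≤ ((j + 1 : ℕ) : ℝ) / T := by linarith
      rw [le_div_iff₀ hT0] at this; push_cast at this; linarith
    have h2 : Real.exp (-(T ^ 2 * (x - Real.log m) ^ 2 / 4)) ≤ E := by
      rw [hE, ← Real.exp_add]
      apply Real.exp_le_exp.2
      set w := T * (x - Real.log m) with hw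
      have h3 : T ^ 2 * (x - Real.log m) ^ 2 = |w| ^ 2 := by rw [sq_abs, hw]; ring
      have h4 : |(j : ℝ) - T * (x - 4 * L)| ≤ |w| + 1 := by
        have e : (j : ℝ) - T * (x - 4 * L) = (j - T * (Real.log m - 4 * L)) - w := by
          rw [hw]; ring
        rw [e, abs_le]
        have := le_abs_self w
        have := neg_abs_le w
        constructor <;> linarith
      rw [h3]
      nlinarith [sq_nonneg (|w| / 2 - 1)]
    calc LR (1 / L) (Real.exp L) m ^ 2 / m * Real.exp (-(T ^ 2 * (x - Real.log m) ^ 2 / 4))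
        ≤ LR (1 / L) (Real.exp L) m ^ 2 / y * E := by gcongr
      _ = _ := by ring
  have h5 := window (1 / L) (Real.exp L) _ _ hUV
  have h6 := wt_sum (1 / L) (Real.exp L) (by positivity) (Real.one_le_exp hL0.le)
  have h7 : Real.exp L ^ (1 / L) = Real.exp 1 := by
    rw [← Real.exp_mul]; congr 1; field_simp
  rw [h7] at h6
  have h8 : ((⌊y'⌋₊ : ℝ) - ⌊y⌋₊) ≤ y * (2 * (1 / T)) + 1 := by
    have a1 : (⌊y'⌋₊ : ℝ) ≤ y' := Nat.floor_le (by linarith)
    have a2 : y < ⌊y⌋₊ + 1 := Nat.lt_floor_add_one y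
    have a3 : y * (Real.exp (1 / T) - 1) ≤ y * (2 * (1 / T)) := by gcongr
    nlinarith
  have h9 : ∑ m ∈ Ioc ⌊y⌋₊ ⌊y'⌋₊, LR (1 / L) (Real.exp L) m ^ 2 ≤
      (y * (2 * (1 / T)) + 1) * (Q / L) + (Real.exp L * Real.exp 1) ^ 2 := by
    refine h5.trans ?_
    gcongr
  have hy4 : Real.exp (4 * L) ≤ y := Real.exp_le_exp.2 (by
    have : (0 : ℝ) ≤ j / T := by positivity
    linarith)
  have hTy : T / y ≤ Real.exp (-(3 * L)) := by
    rw [div_le_iff₀ hy0]
    calc T ≤ Real.exp L := hTL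
      _ = Real.exp (-(3 * L)) * Real.exp (4 * L) := by rw [← Real.exp_add]; congr 1; ring
      _ ≤ _ := by gcongr
  have hTy1 : T / y ≤ 1 := hTy.trans (Real.exp_le_one_iff.2 (by linarith))
  have h10 : T / y * (Real.exp L * Real.exp 1) ^ 2 ≤ Real.exp 2 / L := by
    have b1 : Real.exp (-(3 * L)) * (Real.exp L * Real.exp 1) ^ 2 = Real.exp 2 / Real.exp L := by
      rw [← Real.exp_add, ← Real.exp_nat_mul, ← Real.exp_add, ← Real.exp_sub]
      congr 1; push_cast; ring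
    have b2 : L ≤ Real.exp L := by have := Real.add_one_le_exp L; linarith
    calc _ ≤ Real.exp (-(3 * L)) * (Real.exp L * Real.exp 1) ^ 2 := by gcongr
      _ = _ := b1
      _ ≤ _ := by gcongr
  have hQL : 0 ≤ Q / L := by positivity
  calc T * ∑ m ∈ Ioc ⌊y⌋₊ ⌊y'⌋₊, LR (1 / L) (Real.exp L) m ^ 2 / m *
        Real.exp (-(T ^ 2 * (x - Real.log m) ^ 2 / 4))
      ≤ T * ∑ m ∈ Ioc ⌊y⌋₊ ⌊y'⌋₊, E / y * LR (1 / L) (Real.exp L) m ^ 2 :=
        mul_le_mul_of_nonneg_left (Finset.sum_le_sum h1) hT0.le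
    _ = E * (T / y * ∑ m ∈ Ioc ⌊y⌋₊ ⌊y'⌋₊, LR (1 / L) (Real.exp L) m ^ 2) := by
        rw [← Finset.mul_sum]; ring
    _ ≤ E * (T / y * ((y * (2 * (1 / T)) + 1) * (Q / L) + (Real.exp L * Real.exp 1) ^ 2)) := by
        gcongr
    _ = E * (2 * (Q / L) + T / y * (Q / L) + T / y * (Real.exp L * Real.exp 1) ^ 2) := by
        field_simp
    _ ≤ E * (2 * (Q / L) + 1 * (Q / L) + Real.exp 2 / L) := by gcongr
    _ = _ := by rw [hE]; ring

lemma step4 (Q L T : ℝ) (hQ : 0 ≤ Q) (hL : 4 ≤ L) (hT : 1 ≤ T) (hTL : T ≤ Real.exp L)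
    (hq : |QF (1 / L) 1 (Real.exp L) (Real.exp L)| ≤ Q / L) (x : ℝ) :
    T * ∑ m ∈ Ioc ⌊Real.exp (4 * L)⌋₊ ⌊Real.exp (20 * L)⌋₊,
      LR (1 / L) (Real.exp L) m ^ 2 / m * Real.exp (-(T ^ 2 * (x - Real.log m) ^ 2 / 4)) ≤
      Real.exp 2 * ((3 * Q + Real.exp 2) / L) * 5 := by
  have hL0 : 0 < L := by linarith
  have hT0 : 0 < T := by linarith
  let u : ℕ → ℕ := fun j => ⌊Real.exp (4 * L + j / T)⌋₊
  have hu : Monotone u := by
    intro a b hab
    apply Nat.floor_le_floor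
    apply Real.exp_le_exp.2
    have : (a : ℝ) ≤ b := by exact_mod_cast hab
    gcongr
  set J := ⌈16 * L * T⌉₊ with hJ
  have h0 : u 0 = ⌊Real.exp (4 * L)⌋₊ := by simp [u]
  have h1 : ⌊Real.exp (20 * L)⌋₊ ≤ u J := by
    apply Nat.floor_le_floor
    apply Real.exp_le_exp.2
    have : 16 * L ≤ (J : ℝ) / T := by
      rw [le_div_iff₀ hT0]; exact Nat.le_ceil _
    linarith
  set f : ℕ → ℝ := fun m =>
    LR (1 / L) (Real.exp L) m ^ 2 / m * Real.exp (-(T ^ 2 * (x - Real.log m) ^ 2 / 4)) with hf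
  calc T * ∑ m ∈ Ioc ⌊Real.exp (4 * L)⌋₊ ⌊Real.exp (20 * L)⌋₊, f m
      ≤ T * ∑ m ∈ Ioc (u 0) (u J), f m := by
        apply mul_le_mul_of_nonneg_left _ hT0.le
        rw [h0]
        exact Finset.sum_le_sum_of_subset_of_nonneg (Finset.Ioc_subset_Ioc_right h1)
          (fun m _ _ => by positivity)
    _ = ∑ j ∈ range J, T * ∑ m ∈ Ioc (u j) (u (j + 1)), f m := by
        rw [sum_windows u hu, Finset.mul_sum]
    _ ≤ ∑ j ∈ range J, Real.exp 2 * ((3 * Q + Real.exp 2) / L) *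
          Real.exp (-|(j : ℝ) - T * (x - 4 * L)|) :=
        Finset.sum_le_sum fun j _ => one_window Q L T hQ hL hT hTL hq x j
    _ = Real.exp 2 * ((3 * Q + Real.exp 2) / L) *
          ∑ j ∈ range J, Real.exp (-|(j : ℝ) - T * (x - 4 * L)|) := by rw [Finset.mul_sum]
    _ ≤ _ := by gcongr; exact exp_sum_le _ _

theorem dp (h : S_QF) : S_DP := by
  obtain ⟨C, hC, h⟩ := h
  set Q := 2 * C * Real.exp 6 with hQ
  have hQ0 : 0 ≤ Q := by positivity
  set K := Real.exp 2 * (3 * Q + Real.exp 2) * 5 with hK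
  have hK0 : 0 < K := by positivity
  refine ⟨Real.sqrt Real.pi * Real.exp 20 ^ 2 * (48 * C * Real.exp 50) * K, by
    have := Real.sqrt_pos.2 Real.pi_pos
    positivity, ?_⟩
  intro L T σ hL hT hTL hσ1 hσ2
  have hL0 : 0 < L := by linarith
  have hT0 : 0 < T := by linarith
  have hδ : 0 < 1 / L := by positivity
  set S := Ioc ⌊Real.exp (4 * L)⌋₊ ⌊Real.exp (20 * L)⌋₊ with hS
  have hSpos : ∀ n ∈ S, (0 : ℝ) < n := fun n hn => by
    have := (Finset.mem_Ioc.1 hn).1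
    exact_mod_cast (by omega : 0 < n)
  set b : ℕ → ℝ := fun n => cc L n * (n : ℝ) ^ (-σ) with hb
  set A : ℕ → ℝ := fun n => LR (1 / L) (Real.exp (5 * L)) n - LR (1 / L) (Real.exp (4 * L)) n
    with hA
  set P : ℕ → ℝ := fun n => LR (1 / L) (Real.exp L) n with hP
  set k : ℕ → ℕ → ℝ := fun n m => Real.exp (-(T ^ 2 * (Real.log n - Real.log m) ^ 2 / 4)) with hk
  have hk0 : ∀ n m, 0 ≤ k n m := fun n m => (Real.exp_pos _).le
  have hks : ∀ n m, k n m = k m n := fun n m => by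
    simp only [hk]; congr 1; ring
  have e1 : ∀ t : ℝ, ∑ n ∈ S, ((cc L n : ℝ) : ℂ) * (n : ℂ) ^ (-((σ : ℂ) + t * Complex.I)) =
      ∑ n ∈ S, (b n : ℂ) * Complex.exp (-((Real.log n : ℝ) * t * Complex.I)) := by
    intro t
    apply Finset.sum_congr rfl
    intro n hn
    have hn0 := hSpos n hn
    have hn1 : (n : ℂ) ≠ 0 := by exact_mod_cast hn0.ne'
    rw [Complex.cpow_def_of_ne_zero hn1, hb]
    simp only []
    rw [Real.rpow_def_of_pos hn0, Complex.ofReal_mul, Complex.ofReal_exp, mul_assoc,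
      ← Complex.exp_add, ← Complex.natCast_log]
    congr 2
    push_cast
    ring
  simp only [e1]
  refine (gauss_mean S b (fun n => Real.log n) T hT0).trans ?_
  have hb1 : ∀ n ∈ S, |b n| ≤ Real.exp 20 * (|A n| * |P n| / n) := by
    intro n hn
    have hn0 := hSpos n hn
    have hn1 : (n : ℝ) ≤ Real.exp (20 * L) :=
      (Nat.le_floor_iff (Real.exp_pos _).le).1 (Finset.mem_Ioc.1 hn).2
    have hn2 : (1 : ℝ) ≤ n := by
      have : 0 < n := by exact_mod_cast hn0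
      exact_mod_cast this
    have h4 : (n : ℝ) ^ (1 / L) ≤ Real.exp 20 := by
      have := Real.rpow_le_rpow hn0.le hn1 hδ.le
      rwa [← one_mul (1 / L), exp_rpow _ _ _ hL0, mul_one, one_mul] at this
    have h5 : (n : ℝ) ^ (-σ) ≤ Real.exp 20 / n := by
      calc (n : ℝ) ^ (-σ) ≤ (n : ℝ) ^ (1 / L - 1) :=
            Real.rpow_le_rpow_of_exponent_le hn2 (by linarith)
        _ = (n : ℝ) ^ (1 / L) / n := Real.rpow_sub_one hn0.ne' _
        _ ≤ _ := by gcongr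
    have h6 : |b n| = |A n| * |P n| * (n : ℝ) ^ (-σ) := by
      simp only [hb, hA, hP, cc]
      rw [abs_mul, abs_mul, abs_of_nonneg (Real.rpow_nonneg hn0.le _)]
    rw [h6]
    calc |A n| * |P n| * (n : ℝ) ^ (-σ) ≤ |A n| * |P n| * (Real.exp 20 / n) := by gcongr
      _ = _ := by ring
  set F : ℕ → ℕ → ℝ := fun n m => A n ^ 2 / n * (P m ^ 2 / m * k n m) with hF
  have h2 : ∑ n ∈ S, ∑ m ∈ S, |b n| * |b m| * k n m ≤
      Real.exp 20 ^ 2 * ∑ n ∈ S, ∑ m ∈ S, F n m := by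
    have h3 : ∑ n ∈ S, ∑ m ∈ S, |b n| * |b m| * k n m ≤
        ∑ n ∈ S, ∑ m ∈ S, Real.exp 20 ^ 2 / 2 * (F n m + F m n) := by
      apply Finset.sum_le_sum
      intro n hn
      apply Finset.sum_le_sum
      intro m hm
      have hn0 := hSpos n hn
      have hm0 := hSpos m hm
      have h7 : |A n| * |P n| * (|A m| * |P m|) ≤ (A n ^ 2 * P m ^ 2 + A m ^ 2 * P n ^ 2) / 2 := by
        rw [← sq_abs (A n), ← sq_abs (P m), ← sq_abs (A m), ← sq_abs (P n)]
        nlinarith [sq_nonneg (|A n| * |P m| - |A m| * |P n|)]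
      have hk1 := hk0 n m
      calc |b n| * |b m| * k n m ≤ (Real.exp 20 * (|A n| * |P n| / n)) *
            (Real.exp 20 * (|A m| * |P m| / m)) * k n m := by
            gcongr
            · exact hb1 n hn
            · exact hb1 m hm
        _ = Real.exp 20 ^ 2 * (k n m / (n * m)) * (|A n| * |P n| * (|A m| * |P m|)) := by
            field_simp
        _ ≤ Real.exp 20 ^ 2 * (k n m / (n * m)) *
            ((A n ^ 2 * P m ^ 2 + A m ^ 2 * P n ^ 2) / 2) := by gcongr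
        _ = _ := by
            simp only [hF]
            rw [hks m n]
            field_simp
    refine h3.trans (le_of_eq ?_)
    simp only [mul_add, Finset.sum_add_distrib, ← Finset.mul_sum]
    rw [Finset.sum_comm (f := fun n m => F m n)]
    ring
  have hq : |QF (1 / L) 1 (Real.exp L) (Real.exp L)| ≤ Q / L := by
    have hR : 1 ≤ Real.exp L := Real.one_le_exp hL0.le
    have h1 := h (1 / L) _ _ 1 hδ (by rw [div_le_div_iff₀ hL0 (by norm_num)]; linarith) hR hR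
      (Or.inl rfl)
    rw [← Real.exp_add, Real.log_exp, ← two_mul, exp_rpow _ _ _ hL0] at h1
    refine h1.trans ?_
    have e6 : (2 : ℝ) * 3 = 6 := by norm_num
    rw [e6, hQ, le_div_iff₀ hL0]
    have h8 : (1 / L) ^ 2 * (1 + L) * L ≤ 2 := by
      have : (1 / L) ^ 2 * (1 + L) * L = (1 + L) / L := by field_simp
      rw [this, div_le_iff₀ hL0]; linarith
    calc C * Real.exp 6 * (1 / L) ^ 2 * (1 + L) * L
        = C * Real.exp 6 * ((1 / L) ^ 2 * (1 + L) * L) := by ring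
      _ ≤ C * Real.exp 6 * 2 := by gcongr
      _ = _ := by ring
  have h4 : T * ∑ n ∈ S, ∑ m ∈ S, F n m ≤ (48 * C * Real.exp 50) * (K / L) := by
    have h5 : T * ∑ n ∈ S, ∑ m ∈ S, F n m =
        ∑ n ∈ S, A n ^ 2 / n * (T * ∑ m ∈ S, P m ^ 2 / m * k n m) := by
      rw [Finset.mul_sum]
      apply Finset.sum_congr rfl
      intro n _
      simp only [hF]
      rw [← Finset.mul_sum]
      ring
    have h6 : ∀ n : ℕ, T * ∑ m ∈ S, P m ^ 2 / m * k n m ≤ K / L := by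
      intro n
      refine (step4 Q L T hQ0 hL hT hTL hq (Real.log n)).trans (le_of_eq ?_)
      rw [hK]; ring
    have h7 : ∑ n ∈ S, A n ^ 2 / n ≤ 48 * C * Real.exp 50 := by
      have a5 := step3 C hC h L hL 5 (by norm_num) le_rfl ⌊Real.exp (4 * L)⌋₊
      have a4 := step3 C hC h L hL 4 (by norm_num) (by norm_num) ⌊Real.exp (4 * L)⌋₊
      have a3 : ∑ n ∈ S, A n ^ 2 / n ≤ ∑ n ∈ S, (2 * (LR (1 / L) (Real.exp (5 * L)) n ^ 2 / n) +
          2 * (LR (1 / L) (Real.exp (4 * L)) n ^ 2 / n)) := by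
        apply Finset.sum_le_sum
        intro n hn
        have hn0 := hSpos n hn
        have : A n ^ 2 ≤ 2 * LR (1 / L) (Real.exp (5 * L)) n ^ 2 +
            2 * LR (1 / L) (Real.exp (4 * L)) n ^ 2 := by
          simp only [hA]
          nlinarith [sq_nonneg (LR (1 / L) (Real.exp (5 * L)) n + LR (1 / L) (Real.exp (4 * L)) n)]
        calc A n ^ 2 / n ≤ (2 * LR (1 / L) (Real.exp (5 * L)) n ^ 2 +
            2 * LR (1 / L) (Real.exp (4 * L)) n ^ 2) / n := by gcongr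
          _ = _ := by ring
      rw [Finset.sum_add_distrib, ← Finset.mul_sum, ← Finset.mul_sum] at a3
      linarith
    rw [h5]
    calc _ ≤ ∑ n ∈ S, A n ^ 2 / n * (K / L) := by
          apply Finset.sum_le_sum
          intro n _
          exact mul_le_mul_of_nonneg_left (h6 n) (by positivity)
      _ = (∑ n ∈ S, A n ^ 2 / n) * (K / L) := by rw [Finset.sum_mul]
      _ ≤ _ := by gcongr
  calc T * Real.sqrt Real.pi * ∑ n ∈ S, ∑ m ∈ S, |b n| * |b m| * k n m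
      ≤ T * Real.sqrt Real.pi * (Real.exp 20 ^ 2 * ∑ n ∈ S, ∑ m ∈ S, F n m) := by gcongr
    _ = Real.sqrt Real.pi * Real.exp 20 ^ 2 * (T * ∑ n ∈ S, ∑ m ∈ S, F n m) := by ring
    _ ≤ Real.sqrt Real.pi * Real.exp 20 ^ 2 * ((48 * C * Real.exp 50) * (K / L)) := by gcongr
    _ = _ := by ring

end Pool.Agent.H519Z.DP
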