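import Mathlib

set_option autoImplicit false

open Finset MeasureTheory

namespace Pool.Agent.H519Z.DP

lemma gauss_int (T y : ℝ) (hT : 0 < T) :
    ‖∫ t : ℝ, Complex.exp ((-(1 / T ^ 2 : ℝ) : ℂ) * (t : ℂ) ^ 2 + (-(y : ℂ) * Complex.I) * t + 0)‖ =
      T * Real.sqrt Real.pi * Real.exp (-(T ^ 2 * y ^ 2 / 4)) := by
  have hb : (-(1 / T ^ 2 : ℝ) : ℂ).re < 0 := by
    simp only [Complex.neg_re, Complex.ofReal_re]
    have : 0 < 1 / T ^ 2 := by positivity
    linarith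
  rw [integral_cexp_quadratic hb, norm_mul]
  congr 1
  · have h1 : ((Real.pi : ℂ) / -(-((1 / T ^ 2 : ℝ) : ℂ))) = ((Real.pi * T ^ 2 : ℝ) : ℂ) := by
      have : (T : ℂ) ≠ 0 := by exact_mod_cast hT.ne'
      push_cast
      field_simp
    rw [h1]
    have h2 : (1 / 2 : ℂ) = ((1 / 2 : ℝ) : ℂ) := by push_cast; ring
    rw [h2, ← Complex.ofReal_cpow (by positivity), Complex.norm_real, ← Real.sqrt_eq_rpow,
      Real.norm_of_nonneg (Real.sqrt_nonneg _), Real.sqrt_mul Real.pi_pos.le,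
      Real.sqrt_sq hT.le, mul_comm]
  · have h3 : (0 - (-(y : ℂ) * Complex.I) ^ 2 / (4 * -((1 / T ^ 2 : ℝ) : ℂ))) =
        ((-(T ^ 2 * y ^ 2 / 4) : ℝ) : ℂ) := by
      have : (T : ℂ) ≠ 0 := by exact_mod_cast hT.ne'
      rw [mul_pow, Complex.I_sq]
      push_cast
      field_simp
      ring
    rw [h3, ← Complex.ofReal_exp, Complex.norm_real, Real.norm_of_nonneg (Real.exp_pos _).le]

lemma gauss_mean {ι : Type*} (S : Finset ι) (b x : ι → ℝ) (T : ℝ) (hT : 0 < T) :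
    ∫ t : ℝ, ‖∑ n ∈ S, (b n : ℂ) * Complex.exp (-((x n : ℂ) * t * Complex.I))‖ ^ 2 *
        Real.exp (-(t ^ 2 / T ^ 2)) ≤
      T * Real.sqrt Real.pi *
        ∑ n ∈ S, ∑ m ∈ S, |b n| * |b m| * Real.exp (-(T ^ 2 * (x n - x m) ^ 2 / 4)) := by
  have hb : (-(1 / T ^ 2 : ℝ) : ℂ).re < 0 := by
    simp only [Complex.neg_re, Complex.ofReal_re]
    have : 0 < 1 / T ^ 2 := by positivity
    linarith
  set g : ι → ι → ℝ → ℂ := fun n m t => ((b n : ℂ) * (b m : ℂ)) *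
    Complex.exp ((-(1 / T ^ 2 : ℝ) : ℂ) * (t : ℂ) ^ 2 +
      (-((x n - x m : ℝ) : ℂ) * Complex.I) * t + 0) with hg
  have hgi : ∀ n m, Integrable (g n m) := fun n m =>
    (integrable_cexp_quadratic' hb _ _).const_mul _
  have key : ∀ t : ℝ, ((‖∑ n ∈ S, (b n : ℂ) * Complex.exp (-((x n : ℂ) * t * Complex.I))‖ ^ 2 *
      Real.exp (-(t ^ 2 / T ^ 2)) : ℝ) : ℂ) = ∑ n ∈ S, ∑ m ∈ S, g n m t := by
    intro t
    rw [Complex.ofReal_mul, Complex.ofReal_pow, ← Complex.mul_conj', map_sum, Finset.sum_mul_sum,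
      Finset.sum_mul]
    apply Finset.sum_congr rfl
    intro n _
    rw [Finset.sum_mul]
    apply Finset.sum_congr rfl
    intro m _
    rw [map_mul, Complex.conj_ofReal, ← Complex.exp_conj, Complex.ofReal_exp, hg]
    simp only [map_neg, map_mul, Complex.conj_ofReal, Complex.conj_I]
    rw [mul_mul_mul_comm, mul_assoc, ← Complex.exp_add, ← Complex.exp_add]
    congr 2
    push_cast
    ring
  have h1 : ((∫ t : ℝ, ‖∑ n ∈ S, (b n : ℂ) * Complex.exp (-((x n : ℂ) * t * Complex.I))‖ ^ 2 *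
      Real.exp (-(t ^ 2 / T ^ 2)) : ℝ) : ℂ) = ∑ n ∈ S, ∑ m ∈ S, ∫ t, g n m t := by
    rw [← integral_complex_ofReal]
    have : (fun t : ℝ => ((‖∑ n ∈ S, (b n : ℂ) * Complex.exp (-((x n : ℂ) * t * Complex.I))‖ ^ 2 *
      Real.exp (-(t ^ 2 / T ^ 2)) : ℝ) : ℂ)) = fun t => ∑ n ∈ S, ∑ m ∈ S, g n m t := funext key
    rw [this]
    rw [integral_finset_sum _ (fun n _ => integrable_finset_sum _ (fun m _ => hgi n m))]
    apply Finset.sum_congr rfl
    intro n _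
    rw [integral_finset_sum _ (fun m _ => hgi n m)]
  refine (le_abs_self _).trans ?_
  rw [← Real.norm_eq_abs, ← Complex.norm_real, h1, Finset.mul_sum]
  refine (norm_sum_le _ _).trans (Finset.sum_le_sum fun n _ => ?_)
  rw [Finset.mul_sum]
  refine (norm_sum_le _ _).trans (Finset.sum_le_sum fun m _ => le_of_eq ?_)
  rw [hg]
  simp only []
  rw [integral_const_mul, norm_mul, gauss_int T (x n - x m) hT, norm_mul, Complex.norm_real,
    Complex.norm_real, Real.norm_eq_abs, Real.norm_eq_abs]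
  ring

lemma exp_sum_le (τ : ℝ) (J : ℕ) : ∑ j ∈ range J, Real.exp (-|(j : ℝ) - τ|) ≤ 5 := by
  have he : (2 : ℝ) ≤ Real.exp 1 := by
    have := Real.add_one_le_exp (1 : ℝ); linarith
  have main : ∀ J : ℕ, ∑ j ∈ range J, Real.exp (-|(j : ℝ) - τ|) ≤
      if (J : ℝ) ≤ τ then 2 * Real.exp (J - τ) else 5 - 2 * Real.exp (τ - J) := by
    intro J
    induction J with
    | zero =>
      simp only [range_zero, sum_empty, Nat.cast_zero]
      split_ifs with h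
      · positivity
      · have : Real.exp (τ - 0) ≤ 1 := Real.exp_le_one_iff.2 (by linarith)
        linarith
    | succ J ih =>
      rw [Finset.sum_range_succ]
      push_cast
      by_cases h1 : (J : ℝ) ≤ τ
      · rw [if_pos h1] at ih
        rw [abs_of_nonpos (by linarith), neg_neg]
        have ha := Real.exp_pos ((J : ℝ) - τ)
        split_ifs with h2
        · have : Real.exp ((J : ℝ) + 1 - τ) = Real.exp 1 * Real.exp (J - τ) := by
            rw [← Real.exp_add]; congr 1; ring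
          nlinarith
        · have h3 : Real.exp ((J : ℝ) - τ) ≤ 1 := Real.exp_le_one_iff.2 (by linarith)
          have h4 : Real.exp (τ - (J + 1)) ≤ 1 := Real.exp_le_one_iff.2 (by linarith)
          linarith
      · rw [if_neg h1] at ih
        rw [if_neg (by linarith), abs_of_nonneg (by linarith), neg_sub]
        have : Real.exp (τ - J) = Real.exp 1 * Real.exp (τ - (J + 1)) := by
          rw [← Real.exp_add]; congr 1; ring
        have ha := Real.exp_pos (τ - ((J : ℝ) + 1))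
        nlinarith
  refine (main J).trans ?_
  split_ifs with h
  · have : Real.exp ((J : ℝ) - τ) ≤ 1 := Real.exp_le_one_iff.2 (by linarith)
    linarith
  · have := Real.exp_pos (τ - J)
    linarith

lemma zeta_partial (δ : ℝ) (hδ : 0 < δ) (N : ℕ) :
    ∑ n ∈ range (N + 2), (n : ℝ) ^ (-(1 + δ)) ≤ 1 + (1 - ((N : ℝ) + 1) ^ (-δ)) / δ := by
  induction N with
  | zero =>
    simp [Finset.sum_range_succ, Real.zero_rpow (show -δ + -1 ≠ 0 by linarith)]
  | succ N ih =>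
    rw [Finset.sum_range_succ]
    push_cast
    have hN : (0 : ℝ) < (N : ℝ) + 1 := by positivity
    have hN2 : (0 : ℝ) < (N : ℝ) + 2 := by positivity
    have e1 : ((N : ℝ) + 1 + 1) = (N : ℝ) + 2 := by ring
    rw [e1]
    have h1 : ((N : ℝ) + 2) ^ (-(1 + δ)) = ((N : ℝ) + 2) ^ (-δ) / ((N : ℝ) + 2) := by
      rw [← Real.rpow_sub_one hN2.ne']; congr 1; ring
    have h2 : ((N : ℝ) + 2) ^ (-δ) * (1 + δ / ((N : ℝ) + 2)) ≤ ((N : ℝ) + 1) ^ (-δ) := by
      have h3 : Real.log (((N : ℝ) + 1) / ((N : ℝ) + 2)) ≤ ((N : ℝ) + 1) / ((N : ℝ) + 2) - 1 :=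
        Real.log_le_sub_one_of_pos (by positivity)
      have h4 : ((N : ℝ) + 1) / ((N : ℝ) + 2) - 1 = -(1 / ((N : ℝ) + 2)) := by
        field_simp; ring
      rw [h4, Real.log_div hN.ne' hN2.ne'] at h3
      rw [Real.rpow_def_of_pos hN, Real.rpow_def_of_pos hN2]
      have h5 : 1 + δ / ((N : ℝ) + 2) ≤ Real.exp (δ / ((N : ℝ) + 2)) := by
        have := Real.add_one_le_exp (δ / ((N : ℝ) + 2)); linarith
      calc Real.exp (Real.log ((N : ℝ) + 2) * -δ) * (1 + δ / ((N : ℝ) + 2))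
          ≤ Real.exp (Real.log ((N : ℝ) + 2) * -δ) * Real.exp (δ / ((N : ℝ) + 2)) := by gcongr
        _ = Real.exp (Real.log ((N : ℝ) + 2) * -δ + δ / ((N : ℝ) + 2)) := by rw [Real.exp_add]
        _ ≤ _ := by
          apply Real.exp_le_exp.2
          have h6 : δ / ((N : ℝ) + 2) = δ * (1 / ((N : ℝ) + 2)) := by ring
          nlinarith
    have h7 : ((N : ℝ) + 2) ^ (-δ) / ((N : ℝ) + 2) ≤
        (((N : ℝ) + 1) ^ (-δ) - ((N : ℝ) + 2) ^ (-δ)) / δ := by
      rw [le_div_iff₀ hδ]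
      have : ((N : ℝ) + 2) ^ (-δ) / ((N : ℝ) + 2) * δ =
          ((N : ℝ) + 2) ^ (-δ) * (δ / ((N : ℝ) + 2)) := by ring
      nlinarith
    have h8 : (1 - ((N : ℝ) + 2) ^ (-δ)) / δ = (1 - ((N : ℝ) + 1) ^ (-δ)) / δ +
        (((N : ℝ) + 1) ^ (-δ) - ((N : ℝ) + 2) ^ (-δ)) / δ := by ring
    rw [h1, h8]
    linarith

lemma zeta_summable (δ : ℝ) (hδ : 0 < δ) : Summable fun n : ℕ => (n : ℝ) ^ (-(1 + δ)) :=
  Real.summable_nat_rpow.2 (by linarith)

lemma zeta_le (δ : ℝ) (hδ : 0 < δ) : ∑' n : ℕ, (n : ℝ) ^ (-(1 + δ)) ≤ 1 + 1 / δ := by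
  apply Real.tsum_le_of_sum_range_le (fun n => by positivity)
  intro N
  calc ∑ n ∈ range N, (n : ℝ) ^ (-(1 + δ)) ≤ ∑ n ∈ range (N + 2), (n : ℝ) ^ (-(1 + δ)) :=
        Finset.sum_le_sum_of_subset_of_nonneg (Finset.range_mono (by omega))
          (fun _ _ _ => by positivity)
    _ ≤ _ := zeta_partial δ hδ N
    _ ≤ _ := by
      have : 0 ≤ ((N : ℝ) + 1) ^ (-δ) := by positivity
      gcongr
      linarith

lemma hasSum_mult (δ : ℝ) (hδ : 0 < δ) (q : ℕ) (hq : 0 < q) :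
    HasSum (fun n : ℕ => (if q ∣ n then (1 : ℝ) else 0) * (n : ℝ) ^ (-(1 + δ)))
      ((q : ℝ) ^ (-(1 + δ)) * ∑' n : ℕ, (n : ℝ) ^ (-(1 + δ))) := by
  have hinj : Function.Injective fun k : ℕ => q * k := fun a b h => Nat.eq_of_mul_eq_mul_left hq h
  rw [← hinj.hasSum_iff]
  · have := (zeta_summable δ hδ).hasSum.mul_left ((q : ℝ) ^ (-(1 + δ)))
    have e : ((fun n : ℕ => (if q ∣ n then (1 : ℝ) else 0) * (n : ℝ) ^ (-(1 + δ))) ∘
        fun k : ℕ => q * k) = fun i : ℕ => (q : ℝ) ^ (-(1 + δ)) * (i : ℝ) ^ (-(1 + δ)) := by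
      funext k
      simp only [Function.comp, dvd_mul_right, if_true, one_mul, Nat.cast_mul]
      exact Real.mul_rpow (by positivity) (by positivity)
    rw [e]
    exact this
  · intro n hn
    rw [if_neg, zero_mul]
    rintro ⟨k, rfl⟩
    exact hn ⟨k, rfl⟩

lemma count_mult (q U V : ℕ) (hq : 0 < q) (hUV : U ≤ V) :
    |∑ m ∈ Ioc U V, (if q ∣ m then (1 : ℝ) else 0) - ((V : ℝ) - U) * (q : ℝ) ^ (-(1 : ℝ))| ≤ 1 := by
  have h0 : ∀ W : ℕ, ∑ m ∈ Ioc 0 W, (if q ∣ m then (1 : ℝ) else 0) = ((W / q : ℕ) : ℝ) := by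
    intro W
    rw [Finset.sum_boole, Nat.Ioc_filter_dvd_card_eq_div]
  have h1 := Finset.sum_Ioc_consecutive (fun m => if q ∣ m then (1 : ℝ) else 0) (Nat.zero_le U) hUV
  rw [h0, h0] at h1
  have hq' : (0 : ℝ) < q := by exact_mod_cast hq
  have h2 : ∀ W : ℕ, ((W / q : ℕ) : ℝ) ≤ (W : ℝ) / q ∧ (W : ℝ) / q < ((W / q : ℕ) : ℝ) + 1 := by
    intro W
    refine ⟨Nat.cast_div_le, ?_⟩
    rw [div_lt_iff₀ hq']
    have h3 : W < (W / q + 1) * q := by
      have := Nat.div_add_mod W q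
      have := Nat.mod_lt W hq
      nlinarith
    exact_mod_cast h3
  rw [Real.rpow_neg_one, sub_mul, ← div_eq_mul_inv, ← div_eq_mul_inv, abs_le]
  obtain ⟨a1, a2⟩ := h2 U
  obtain ⟨b1, b2⟩ := h2 V
  constructor <;> linarith

end Pool.Agent.H519Z.DP
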