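import Pool.Agent.H519Z.DP.A
import Pool.Agent.H369Z.Hoh.Defs

set_option autoImplicit false

open Finset MeasureTheory

namespace Pool.Agent.H519Z.DP

open Pool.Agent.H369Z.Hoh

lemma LR_sq (δ R : ℝ) (n : ℕ) : LR δ R n ^ 2 = ∑ d ∈ Icc 1 ⌊R⌋₊, ∑ e ∈ Icc 1 ⌊R⌋₊,
    wt δ R d * wt δ R e * (if Nat.lcm d e ∣ n then (1 : ℝ) else 0) := by
  unfold LR
  rw [sq, Finset.sum_filter, Finset.sum_mul_sum]
  apply Finset.sum_congr rfl
  intro d _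
  apply Finset.sum_congr rfl
  intro e _
  by_cases h1 : d ∣ n <;> by_cases h2 : e ∣ n <;> simp [Nat.lcm_dvd_iff, h1, h2]

lemma sum_LR_le (δ : ℝ) (hδ : 0 < δ) (R : ℝ) (S : Finset ℕ) :
    ∑ n ∈ S, LR δ R n ^ 2 * (n : ℝ) ^ (-(1 + δ)) ≤ |QF δ (1 + δ) R R| * (1 + 1 / δ) := by
  set Z := ∑' n : ℕ, (n : ℝ) ^ (-(1 + δ)) with hZ
  have h1 : HasSum (fun n : ℕ => LR δ R n ^ 2 * (n : ℝ) ^ (-(1 + δ))) (QF δ (1 + δ) R R * Z) := by
    have h2 : HasSum (fun n : ℕ => ∑ d ∈ Icc 1 ⌊R⌋₊, ∑ e ∈ Icc 1 ⌊R⌋₊, wt δ R d * wt δ R e *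
        ((if Nat.lcm d e ∣ n then (1 : ℝ) else 0) * (n : ℝ) ^ (-(1 + δ))))
        (∑ d ∈ Icc 1 ⌊R⌋₊, ∑ e ∈ Icc 1 ⌊R⌋₊, wt δ R d * wt δ R e *
          (((Nat.lcm d e : ℕ) : ℝ) ^ (-(1 + δ)) * Z)) := by
      apply hasSum_sum
      intro d hd
      apply hasSum_sum
      intro e he
      apply HasSum.mul_left
      exact hasSum_mult δ hδ _ (Nat.lcm_pos (Finset.mem_Icc.1 hd).1 (Finset.mem_Icc.1 he).1)
    have e1 : (fun n : ℕ => LR δ R n ^ 2 * (n : ℝ) ^ (-(1 + δ))) =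
        fun n : ℕ => ∑ d ∈ Icc 1 ⌊R⌋₊, ∑ e ∈ Icc 1 ⌊R⌋₊, wt δ R d * wt δ R e *
        ((if Nat.lcm d e ∣ n then (1 : ℝ) else 0) * (n : ℝ) ^ (-(1 + δ))) := by
      funext n
      rw [LR_sq, Finset.sum_mul]
      apply Finset.sum_congr rfl
      intro d _
      rw [Finset.sum_mul]
      apply Finset.sum_congr rfl
      intro e _
      ring
    have e2 : QF δ (1 + δ) R R * Z = ∑ d ∈ Icc 1 ⌊R⌋₊, ∑ e ∈ Icc 1 ⌊R⌋₊, wt δ R d * wt δ R e *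
          (((Nat.lcm d e : ℕ) : ℝ) ^ (-(1 + δ)) * Z) := by
      unfold QF
      rw [Finset.sum_mul]
      apply Finset.sum_congr rfl
      intro d _
      rw [Finset.sum_mul]
      apply Finset.sum_congr rfl
      intro e _
      ring
    rw [e1, e2]
    exact h2
  have hZ0 : 0 ≤ Z := tsum_nonneg fun n => by positivity
  calc _ ≤ QF δ (1 + δ) R R * Z := sum_le_hasSum S (fun n _ => by positivity) h1
    _ ≤ |QF δ (1 + δ) R R| * Z := by gcongr; exact le_abs_self _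
    _ ≤ _ := by gcongr; exact zeta_le δ hδ

lemma window (δ R : ℝ) (U V : ℕ) (hUV : U ≤ V) :
    ∑ m ∈ Ioc U V, LR δ R m ^ 2 ≤
      ((V : ℝ) - U) * |QF δ 1 R R| + (∑ d ∈ Icc 1 ⌊R⌋₊, |wt δ R d|) ^ 2 := by
  have hVU : (0 : ℝ) ≤ (V : ℝ) - U := by
    have : (U : ℝ) ≤ V := by exact_mod_cast hUV
    linarith
  have e1 : ∑ m ∈ Ioc U V, LR δ R m ^ 2 = ∑ d ∈ Icc 1 ⌊R⌋₊, ∑ e ∈ Icc 1 ⌊R⌋₊,
      wt δ R d * wt δ R e * ∑ m ∈ Ioc U V, (if Nat.lcm d e ∣ m then (1 : ℝ) else 0) := by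
    rw [Finset.sum_congr rfl (fun m _ => LR_sq δ R m), Finset.sum_comm]
    apply Finset.sum_congr rfl
    intro d _
    rw [Finset.sum_comm]
    apply Finset.sum_congr rfl
    intro e _
    rw [Finset.mul_sum]
  have e2 : ((V : ℝ) - U) * QF δ 1 R R + (∑ d ∈ Icc 1 ⌊R⌋₊, |wt δ R d|) ^ 2 =
      ∑ d ∈ Icc 1 ⌊R⌋₊, ∑ e ∈ Icc 1 ⌊R⌋₊, (wt δ R d * wt δ R e *
        (((V : ℝ) - U) * ((Nat.lcm d e : ℕ) : ℝ) ^ (-(1 : ℝ))) + |wt δ R d| * |wt δ R e|) := by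
    unfold QF
    rw [sq, Finset.sum_mul_sum, Finset.mul_sum, ← Finset.sum_add_distrib]
    apply Finset.sum_congr rfl
    intro d _
    rw [Finset.mul_sum, ← Finset.sum_add_distrib]
    apply Finset.sum_congr rfl
    intro e _
    ring
  have h1 : ∑ m ∈ Ioc U V, LR δ R m ^ 2 ≤
      ((V : ℝ) - U) * QF δ 1 R R + (∑ d ∈ Icc 1 ⌊R⌋₊, |wt δ R d|) ^ 2 := by
    rw [e1, e2]
    apply Finset.sum_le_sum
    intro d hd
    apply Finset.sum_le_sum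
    intro e he
    have h2 := count_mult _ U V (Nat.lcm_pos (Finset.mem_Icc.1 hd).1 (Finset.mem_Icc.1 he).1) hUV
    set a := ∑ m ∈ Ioc U V, (if Nat.lcm d e ∣ m then (1 : ℝ) else 0)
    set c := ((V : ℝ) - U) * ((Nat.lcm d e : ℕ) : ℝ) ^ (-(1 : ℝ))
    have h3 : wt δ R d * wt δ R e * (a - c) ≤ |wt δ R d| * |wt δ R e| := by
      refine (le_abs_self _).trans ?_
      rw [abs_mul, abs_mul]
      exact mul_le_of_le_one_right (by positivity) h2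
    linarith
  refine h1.trans ?_
  gcongr
  exact le_abs_self _

lemma wt_sum (δ R : ℝ) (hδ : 0 ≤ δ) (hR : 1 ≤ R) :
    ∑ d ∈ Icc 1 ⌊R⌋₊, |wt δ R d| ≤ R * R ^ δ := by
  have h1 : ∀ d ∈ Icc 1 ⌊R⌋₊, |wt δ R d| ≤ R ^ δ := by
    intro d hd
    have hd2 : (d : ℝ) ≤ R := (Nat.le_floor_iff (by linarith)).1 (Finset.mem_Icc.1 hd).2
    have h2 : (d : ℝ) ^ δ ≤ R ^ δ := Real.rpow_le_rpow (by positivity) hd2 hδ
    have h3 : 0 ≤ (d : ℝ) ^ δ := by positivity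
    have h4 : |((ArithmeticFunction.moebius d : ℤ) : ℝ)| ≤ 1 := by
      exact_mod_cast ArithmeticFunction.abs_moebius_le_one
    unfold wt
    rw [abs_mul, abs_of_nonneg (sub_nonneg.2 h2)]
    calc _ ≤ 1 * (R ^ δ - (d : ℝ) ^ δ) := by gcongr
      _ ≤ _ := by linarith
  refine (Finset.sum_le_card_nsmul _ _ _ h1).trans ?_
  rw [Nat.card_Icc, nsmul_eq_mul, Nat.add_sub_cancel]
  have : (0 : ℝ) ≤ R ^ δ := by positivity
  gcongr
  exact Nat.floor_le (by linarith)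

lemma exp_rpow (a L c : ℝ) (hL : 0 < L) : Real.exp (a * L) ^ (c * (1 / L)) = Real.exp (a * c) := by
  rw [← Real.exp_mul]
  congr 1
  field_simp

/-- step 3 -/
lemma step3 (C : ℝ) (hC : 0 < C) (h : ∀ δ R R' α : ℝ, 0 < δ → δ ≤ 1 / 2 → 1 ≤ R → 1 ≤ R' →
    (α = 1 ∨ α = 1 + δ) → |QF δ α R R'| ≤ C * (R * R') ^ (3 * δ) * δ ^ 2 * (1 + Real.log R))
    (L : ℝ) (hL : 4 ≤ L) (a : ℝ) (ha0 : 0 ≤ a) (ha : a ≤ 5) (U : ℕ) :
    ∑ n ∈ Ioc U ⌊Real.exp (20 * L)⌋₊, LR (1 / L) (Real.exp (a * L)) n ^ 2 / n ≤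
      12 * C * Real.exp 50 := by
  have hL0 : 0 < L := by linarith
  have hδ : 0 < 1 / L := by positivity
  have hR : 1 ≤ Real.exp (a * L) := Real.one_le_exp (by positivity)
  have h1 := h (1 / L) _ _ _ hδ (by rw [div_le_div_iff₀ hL0 (by norm_num)]; linarith) hR hR
    (Or.inr rfl)
  rw [← Real.exp_add, Real.log_exp, ← add_mul, exp_rpow _ _ _ hL0] at h1
  have h2 := sum_LR_le (1 / L) hδ (Real.exp (a * L)) (Ioc U ⌊Real.exp (20 * L)⌋₊)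
  have h3 : ∑ n ∈ Ioc U ⌊Real.exp (20 * L)⌋₊, LR (1 / L) (Real.exp (a * L)) n ^ 2 / n ≤
      Real.exp 20 * ∑ n ∈ Ioc U ⌊Real.exp (20 * L)⌋₊,
        LR (1 / L) (Real.exp (a * L)) n ^ 2 * (n : ℝ) ^ (-(1 + 1 / L)) := by
    rw [Finset.mul_sum]
    apply Finset.sum_le_sum
    intro n hn
    have hn0 : (0 : ℝ) < n := by
      have := (Finset.mem_Ioc.1 hn).1
      exact_mod_cast (by omega : 0 < n)
    have hn1 : (n : ℝ) ≤ Real.exp (20 * L) :=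
      (Nat.le_floor_iff (Real.exp_pos _).le).1 (Finset.mem_Ioc.1 hn).2
    have h4 : (n : ℝ) ^ (1 / L) ≤ Real.exp 20 := by
      have := Real.rpow_le_rpow hn0.le hn1 hδ.le
      rwa [← one_mul (1 / L), exp_rpow _ _ _ hL0, mul_one, one_mul] at this
    have h5 : (n : ℝ) ^ (1 / L) * (n : ℝ) ^ (-(1 + 1 / L)) = 1 / n := by
      rw [← Real.rpow_add hn0, one_div (n : ℝ), ← Real.rpow_neg_one]
      congr 1; ring
    have h6 : 1 / (n : ℝ) ≤ Real.exp 20 * (n : ℝ) ^ (-(1 + 1 / L)) := by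
      rw [← h5]; gcongr
    calc LR (1 / L) (Real.exp (a * L)) n ^ 2 / n
        = LR (1 / L) (Real.exp (a * L)) n ^ 2 * (1 / n) := by ring
      _ ≤ LR (1 / L) (Real.exp (a * L)) n ^ 2 * (Real.exp 20 * (n : ℝ) ^ (-(1 + 1 / L))) := by
          gcongr
      _ = _ := by ring
  have h7 : Real.exp ((a + a) * 3) ≤ Real.exp 30 := Real.exp_le_exp.2 (by linarith)
  have h8 : (1 / L) ^ 2 * (1 + a * L) * (1 + 1 / (1 / L)) ≤ 12 := by
    rw [one_div_one_div, div_pow, one_pow, mul_assoc, one_div, inv_mul_le_iff₀ (by positivity)]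
    have : a * L ≤ 5 * L := by gcongr
    nlinarith
  have h9 : |QF (1 / L) (1 + 1 / L) (Real.exp (a * L)) (Real.exp (a * L))| * (1 + 1 / (1 / L)) ≤
      C * Real.exp 30 * 12 := by
    calc _ ≤ C * Real.exp ((a + a) * 3) * (1 / L) ^ 2 * (1 + a * L) * (1 + 1 / (1 / L)) := by
          gcongr
      _ = C * Real.exp ((a + a) * 3) * ((1 / L) ^ 2 * (1 + a * L) * (1 + 1 / (1 / L))) := by ring
      _ ≤ _ := by gcongr
  have e50 : Real.exp 50 = Real.exp 20 * Real.exp 30 := by rw [← Real.exp_add]; norm_num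
  calc _ ≤ _ := h3
    _ ≤ Real.exp 20 * (C * Real.exp 30 * 12) := by gcongr; exact h2.trans h9
    _ = _ := by rw [e50]; ring

end Pool.Agent.H519Z.DP
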